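import Pool.Agent.H.MP_064e41_al.B

namespace Pool.Agent.Results.MP_064e41_al.Counter

open Pool.Agent.H.MP_064e41_al

/-- the reduced trace of `z` vanishes, `A` being a central simple algebra of degree `d` -/
def TrdZero (F A : Type) [Field F] [Ring A] [Algebra F A] (d : ℕ) (z : A) : Prop :=
  LinearMap.trace F A (LinearMap.mulLeft F z) = 0 ∧
    ∀ (K : Type) [Field K] [Algebra F K] (φ : A →ₐ[F] Matrix (Fin d) (Fin d) K),
      Matrix.trace (φ z) = 0

/-- `A` is a central division `F`-algebra of degree `d` violating the bound for the exponent `r` -/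
def Bad (F A : Type) [Field F] [Ring A] [Algebra F A] (d r : ℕ) : Prop :=
  Algebra.IsCentral F A ∧ (∀ z : A, z ≠ 0 → IsUnit z) ∧ Module.finrank F A = d ^ 2 ∧
    ∃ V : Submodule F A, (d ^ 2 - 1) / r < Module.finrank F V ∧ ∀ v ∈ V, TrdZero F A d (v ^ r)

theorem result (k : Type) [Field k] (ω : k) (hω : IsPrimitiveRoot ω 5) :
    Bad (FF k) (Gen k 5 ω) 5 3 := by
  have hw : IsPrimitiveRoot (algebraMap k (FF k) ω) 5 :=
    hω.map_of_injective (algebraMap k (FF k)).injective
  have hX : ∀ i : Fin 2, algebraMap (MvPolynomial (Fin 2) k) (FF k) (.X i) ≠ 0 := fun i h =>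
    MvPolynomial.X_ne_zero i (IsFractionRing.injective _ (FF k) (by rw [h, map_zero]))
  obtain ⟨V, h1, h2⟩ := ex_V (a := algebraMap (MvPolynomial (Fin 2) k) (FF k) (.X 0))
    (b := algebraMap (MvPolynomial (Fin 2) k) (FF k) (.X 1)) hw.pow_eq_one
  refine ⟨central hw (hX 0) (hX 1), division ω hω.pow_eq_one, rank25 hw.pow_eq_one, V,
    by rw [h1]; norm_num, fun v hv => ⟨?_, fun K _ _ φ => ?_⟩⟩
  · exact tr_zero hw (hX 1) ((LinearMap.trace (FF k) (Gen k 5 ω)).comp
      (Algebra.lmul (FF k) (Gen k 5 ω)).toLinearMap) (fun u v => by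
        simp only [LinearMap.comp_apply, AlgHom.toLinearMap_apply, map_mul]
        exact LinearMap.trace_mul_comm _ _ _) (h2 v hv)
  · exact tr_zero hw (hX 1) ((Matrix.traceLinearMap (Fin 5) (FF k) K).comp φ.toLinearMap)
      (fun u v => by
        simp only [LinearMap.comp_apply, AlgHom.toLinearMap_apply, map_mul,
          Matrix.traceLinearMap_apply]
        exact Matrix.trace_mul_comm _ _) (h2 v hv)

end Pool.Agent.Results.MP_064e41_al.Counter
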